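import Mathlib
import Pool.Agent.H47.TreeDefs

namespace Pool.Agent.Results.MP_b8bcd1_lc.DirectDiffer
open Pool.Agent.H47.TreeDefs hiding Closed

/-- a crash-pair whose trace contains every critical node together with its partner -/
def SCrashes (B : List Node) : Prop :=
  ∃ z z' ζ, At B z ζ ∧ At B z' ζ.neg ∧
    ∀ c n p, B[c]? = some n → n.partner = some p → Trace B {z, z'} c ∧ Trace B {z, z'} p

/-- the branch `B` extends, without the recursive rule, to a finite tree all of whose branches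
satisfy `Cr` -/
inductive Closed (Cr : List Node → Prop) : List Node → Prop
  | crash {B} : Cr B → Closed Cr B
  | and {B i φ ψ} : At B i (.and φ ψ) →
      Closed Cr (B ++ [⟨φ, [i], none⟩, ⟨ψ, [i], none⟩]) → Closed Cr B
  | nor {B i φ ψ} : At B i (.neg (.or φ ψ)) →
      Closed Cr (B ++ [⟨φ.neg, [i], none⟩, ⟨ψ.neg, [i], none⟩]) → Closed Cr B
  | dneg {B i φ} : At B i (.neg (.neg φ)) → Closed Cr (B ++ [⟨φ, [i], none⟩]) → Closed Cr B
  | nand {B i φ ψ} : At B i (.neg (.and φ ψ)) → Closed Cr (B ++ [⟨φ.neg, [i], none⟩]) →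
      Closed Cr (B ++ [⟨ψ.neg, [i], none⟩]) → Closed Cr B
  | or {B i φ ψ} : At B i (.or φ ψ) → Closed Cr (B ++ [⟨φ, [i], none⟩]) →
      Closed Cr (B ++ [⟨ψ, [i], none⟩]) → Closed Cr B
  | mp {B i j φ ψ} : At B i φ → At B j (.imp φ ψ) → Closed Cr (B ++ [⟨ψ, [i, j], none⟩]) →
      Closed Cr B
  | cc {B i φ ψ} : At B i (.neg (.imp φ ψ)) →
      Closed Cr (B ++ [⟨φ, [i], some (B.length + 1)⟩, ⟨ψ.neg, [i], some B.length⟩]) → Closed Cr B

/-- directly acceptable: has a truth-tree with parity -/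
def DA (φ : Fm) : Prop := Closed Crashes [⟨φ.neg, [], none⟩]

/-- has a truth-tree with strengthened parity -/
def DAs (φ : Fm) : Prop := Closed SCrashes [⟨φ.neg, [], none⟩]

abbrev y : Fm := .var 0
abbrev b : Fm := .var 1
abbrev W : Fm := .imp b (.imp y.neg y)
abbrev P : Fm := .or y W
abbrev Q : Fm := .or y b
abbrev F : Fm := .or (.imp P y) (.imp Q y)

def L0 : List Fm := [F.neg, (P.imp y).neg, (Q.imp y).neg]
def L : Fin 3 → List Fm
  | 0 => L0
  | 1 => L0 ++ [P, Q, y, y.neg, W]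
  | 2 => L0 ++ [P, Q, y, y.neg, b]
def Lt : Fin 3 → List Fm
  | 0 => []
  | 1 => [P, W]
  | 2 => [Q, b]

def G1 (s : Fin 3) (B : List Node) : Prop :=
  ∀ n ∈ B, n.lab ∈ L s ∧ ∀ i ∈ n.inp, ∃ ψ, At B i ψ ∧ (ψ ∈ Lt s → n.lab ∈ Lt s)

def G (s : Fin 3) (B : List Node) : Prop :=
  G1 s B ∧ (s = 0 ∨ ∃ (c : ℕ) (n : Node) (p : ℕ), B[c]? = some n ∧ n.partner = some p ∧ n.lab ∈ Lt s)

lemma at_app {B i φ} (hi : At B i φ) (N : List Node) : At (B ++ N) i φ :=
  hi.imp fun _ h =>
    ⟨by rw [List.getElem?_append_left (List.getElem?_eq_some_iff.1 h.1).1, h.1], h.2⟩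

lemma at_mem {s B i φ} (h : G s B) (hi : At B i φ) : φ ∈ L s := by
  obtain ⟨n, h1, rfl⟩ := hi
  exact (h.1 n (List.mem_of_getElem? h1)).1

lemma ext1 {s B i φ} (h : G1 s B) (hi : At B i φ) (N : List Node)
    (hN : ∀ n ∈ N, n.lab ∈ L s ∧ n.inp = [i] ∧ (φ ∈ Lt s → n.lab ∈ Lt s)) : G1 s (B ++ N) := by
  intro n hn
  rcases List.mem_append.1 hn with hn | hn
  · exact ⟨(h n hn).1, fun j hj => ((h n hn).2 j hj).imp fun _ a => ⟨at_app a.1 _, a.2⟩⟩
  · obtain ⟨a, e, c⟩ := hN n hn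
    refine ⟨a, fun j hj => ⟨φ, ?_, c⟩⟩
    rw [e, List.mem_singleton] at hj
    exact hj ▸ at_app hi _

lemma ext {s B i φ} (h : G s B) (hi : At B i φ) (N : List Node)
    (hN : ∀ n ∈ N, n.lab ∈ L s ∧ n.inp = [i] ∧ (φ ∈ Lt s → n.lab ∈ Lt s)) : G s (B ++ N) :=
  ⟨ext1 h.1 hi N hN, h.2.imp_right fun ⟨c, n, p, a, e⟩ => ⟨c, n, p, by
    rw [List.getElem?_append_left (List.getElem?_eq_some_iff.1 a).1, a], e⟩⟩

lemma up {B} (h : G 0 B) (s : Fin 3) : G1 s B := fun n hn =>
  ⟨by have := (h.1 n hn).1; fin_cases s <;> simp_all [L], fun i hi => by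
    obtain ⟨ψ, a, -⟩ := (h.1 n hn).2 i hi
    refine ⟨ψ, a, fun e => ?_⟩
    have := at_mem h a
    fin_cases s <;> simp [L, Lt, L0] at e this <;> rcases e with rfl | rfl <;> simp at this⟩

lemma sound {B} (h : Closed SCrashes B) : ∀ s, ¬ G s B := by
  induction h with
  | @crash B h =>
    obtain ⟨z, z', ζ, h1, h2, h3⟩ := h
    intro s hs
    have a1 := at_mem hs h1
    have a2 := at_mem hs h2
    have : s ≠ 0 ∧ ζ = y := by
      fin_cases s <;> simp [L, L0] at a1 a2 ⊢ <;> grind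
    obtain ⟨s0, rfl⟩ := this
    obtain ⟨c, n, p, e1, e2, e3⟩ := hs.2.resolve_left s0
    have key : ∀ m, Trace B {z, z'} m → ∀ n, B[m]? = some n → n.lab ∉ Lt s := by
      intro m hm
      induction hm with
      | base hz =>
        intro n e
        obtain ⟨n1, k1, k2⟩ := h1
        obtain ⟨n2, k3, k4⟩ := h2
        rcases hz with rfl | rfl
        · obtain rfl : n = n1 := by simpa [e] using k1
          rw [k2]; fin_cases s <;> simp [Lt]
        · obtain rfl : n = n2 := by simpa [e] using k3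
          rw [k4]; fin_cases s <;> simp [Lt]
      | step _ e hi ih =>
        intro n' e' k
        obtain ⟨ψ, ⟨n1, k1, rfl⟩, k2⟩ := (hs.1 _ (List.mem_of_getElem? e)).2 _ hi
        obtain rfl : n' = n1 := by simpa [e'] using k1
        exact ih _ e (k2 k)
    exact key c (h3 c n p e1 e2).1 n e1 e3
  | and hi _ _ =>
    intro s hs
    have := at_mem hs hi
    fin_cases s <;> simp [L, L0] at this
  | nor hi _ ih =>
    intro s hs
    have := at_mem hs hi
    refine ih s (ext hs hi _ ?_)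
    fin_cases s <;> simp [L, L0, Lt] at this ⊢ <;> simp [this]
  | dneg hi _ _ =>
    intro s hs
    have := at_mem hs hi
    fin_cases s <;> simp [L, L0] at this
  | nand hi _ _ _ _ =>
    intro s hs
    have := at_mem hs hi
    fin_cases s <;> simp [L, L0] at this
  | or hi _ _ ih1 ih2 =>
    intro s hs
    have := at_mem hs hi
    fin_cases s <;> simp [L, L0] at this <;> rcases this with ⟨rfl, rfl⟩ | ⟨rfl, rfl⟩
    · exact ih2 _ (ext hs hi _ (by simp [L, Lt]))
    · exact ih1 _ (ext hs hi _ (by simp [L, Lt]))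
    · exact ih1 _ (ext hs hi _ (by simp [L, Lt]))
    · exact ih2 _ (ext hs hi _ (by simp [L, Lt]))
  | mp hi hj _ _ =>
    intro s hs
    have a1 := at_mem hs hi
    have a2 := at_mem hs hj
    fin_cases s <;> simp [L, L0] at a1 a2
    simp [a2.1] at a1
  | @cc B i φ ψ hi _ ih =>
    intro s hs
    have := at_mem hs hi
    have e : (φ = P ∨ φ = Q) ∧ ψ = y := by
      fin_cases s <;> simp [L, L0] at this <;> grind
    obtain ⟨e, rfl⟩ := e
    by_cases s0 : s = 0
    · subst s0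
      rcases e with rfl | rfl
      · exact ih 1 ⟨ext1 (up hs 1) hi _ (by simp [L, Lt]),
          Or.inr ⟨B.length, ⟨P, [i], some (B.length + 1)⟩, _, by simp, rfl, by simp [Lt]⟩⟩
      · exact ih 2 ⟨ext1 (up hs 2) hi _ (by simp [L, Lt]),
          Or.inr ⟨B.length, ⟨Q, [i], some (B.length + 1)⟩, _, by simp, rfl, by simp [Lt]⟩⟩
    · refine ih s (ext hs hi _ ?_)
      fin_cases s <;> rcases e with rfl | rfl <;> simp [L, Lt] at s0 ⊢

/-- a certificate for a crash with parity: `S` lists the trace -/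
lemma crash_of {B : List Node} (z z' : ℕ) (ζ : Fm) (S : List ℕ) (h1 : At B z ζ)
    (h2 : At B z' ζ.neg) (h3 : ∀ m, m ∈ z :: z' :: S → ∀ i ∈ (B.map Node.inp).getD m [], i ∈ S)
    (h4 : ∀ k < S.length, ∃ m ∈ z :: z' :: S.take k, S.getD k 0 ∈ (B.map Node.inp).getD m [])
    (h5 : ∀ c < B.length, ∀ p ∈ (B.map Node.partner).getD c none,
      (c ∈ z :: z' :: S ↔ p ∈ z :: z' :: S)) : Crashes B := by
  have key : ∀ m, Trace B {z, z'} m ↔ m ∈ z :: z' :: S := fun m => by
    constructor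
    · intro hm
      induction hm with
      | base hz => rcases hz with rfl | rfl <;> simp
      | step _ e hi ih =>
        exact List.mem_cons_of_mem _ (List.mem_cons_of_mem _ (h3 _ ih _ (by simpa [e] using hi)))
    · have : ∀ k, ∀ m ∈ z :: z' :: S.take k, Trace B {z, z'} m := fun k => by
        induction k with
        | zero => simp only [List.take_zero, List.mem_cons]; rintro m (rfl | rfl | h)
                  exacts [.base (by simp), .base (by simp), by simp at h]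
        | succ k ih =>
          intro m hm
          by_cases hk : k < S.length
          · rw [List.take_succ_eq_append_getElem hk] at hm
            by_cases e : m = S[k]
            · obtain ⟨m', a, c⟩ := h4 k hk
              cases e' : B[m']? with
              | none => simp [e'] at c
              | some n => exact (ih m' a).step e' (by simpa [e', e, hk] using c)
            · exact ih m (by
                simp only [List.mem_cons, List.mem_append, List.not_mem_nil] at hm ⊢; tauto)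
          · exact ih m (by rwa [List.take_of_length_le (by omega)] at hm ⊢)
      exact fun hm => this S.length m (by simpa using hm)
  refine ⟨z, z', ζ, h1, h2, fun c n p e1 e2 => ?_⟩
  rw [key, key]
  exact h5 c (List.getElem?_eq_some_iff.1 e1).1 p (by simp [e1, e2])

theorem result : ∃ φ : Fm, DA φ ∧ ¬ DAs φ := by
  refine ⟨F, ?_, fun h => sound h 0 ⟨by simp [G1, L, L0], Or.inl rfl⟩⟩
  refine .nor (i := 0) ⟨_, rfl, rfl⟩ (.cc (i := 1) ⟨_, rfl, rfl⟩ (.or (i := 3) ⟨_, rfl, rfl⟩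
    (.crash ?_) (.cc (i := 2) ⟨_, rfl, rfl⟩ (.or (i := 6) ⟨_, rfl, rfl⟩ (.crash ?_)
    (.mp (i := 8) (j := 5) ⟨_, rfl, rfl⟩ ⟨_, rfl, rfl⟩
    (.mp (i := 4) (j := 9) ⟨_, rfl, rfl⟩ ⟨_, rfl, rfl⟩ (.crash ?_)))))))
  · exact crash_of 5 4 y [3, 1, 0] ⟨_, rfl, rfl⟩ ⟨_, rfl, rfl⟩ (by decide) (by decide) (by decide)
  · exact crash_of 8 7 y [6, 2, 0] ⟨_, rfl, rfl⟩ ⟨_, rfl, rfl⟩ (by decide) (by decide) (by decide)
  · exact crash_of 10 7 y [4, 9, 8, 5, 6, 3, 2, 1, 0] ⟨_, rfl, rfl⟩ ⟨_, rfl, rfl⟩ (by decide)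
      (by decide) (by decide)

end Pool.Agent.Results.MP_b8bcd1_lc.DirectDiffer
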